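import Pool.Agent.Lib.MP_a19302.Mono

/-!
Quadratic lower bound for the growth of the algebra of `Mono.lean`, hence
Gelfand-Kirillov dimension exactly two.
-/

set_option autoImplicit false

namespace Pool.Agent.Lib.MP_a19302

section abstract_part

variable {k A : Type*} [Field k] [Ring A] [Algebra k A]

theorem pow_fd {x y : A} (h : Rels x y) (N : ℕ) :
    Module.Finite k ↥((Submodule.span k ({1, x, y} : Set A)) ^ N) := by
  have h1 : (Submodule.span k ({1, x, y} : Set A)) ^ N ≤
      Submodule.span k (wordsFin x y N : Set A) :=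
    le_trans (pow_le_span h N) (Submodule.span_mono (words_subset x y N))
  have : FiniteDimensional k ↥(Submodule.span k (wordsFin x y N : Set A)) :=
    FiniteDimensional.span_finset k _
  exact Submodule.finiteDimensional_of_le h1

theorem xyx_mem (x y : A) (a b N : ℕ) (h : a + 1 + b ≤ N) :
    x ^ a * y * x ^ b ∈ (Submodule.span k ({1, x, y} : Set A)) ^ N := by
  have h1V : (1 : A) ∈ Submodule.span k ({1, x, y} : Set A) :=
    Submodule.subset_span (Or.inl rfl)
  have hx : x ∈ Submodule.span k ({1, x, y} : Set A) := Submodule.subset_span (Or.inr (Or.inl rfl))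
  have hy : y ∈ Submodule.span k ({1, x, y} : Set A) := Submodule.subset_span (Or.inr (Or.inr rfl))
  have h1 : x ^ a * y * x ^ b ∈ (Submodule.span k ({1, x, y} : Set A)) ^ (a + 1 + b) := by
    rw [pow_add, pow_succ]
    exact Submodule.mul_mem_mul (Submodule.mul_mem_mul (Submodule.pow_mem_pow _ hx _) hy)
      (Submodule.pow_mem_pow _ hx _)
  exact pow_le_pow_right' (Submodule.one_le.mpr h1V) h h1

theorem lower_abs {x y : A} (h : Rels x y)
    (hli : ∀ m : ℕ, LinearIndependent k
      (fun q : Fin m × Fin m => x ^ (q.1 : ℕ) * y * x ^ (q.2 : ℕ))) (N : ℕ) :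
    N ^ 2 ≤ 4 * Module.finrank k ↥((Submodule.span k ({1, x, y} : Set A)) ^ N) := by
  set m := (N + 1) / 2 with hm
  have h2m : N ≤ 2 * m := by omega
  have hspan : Submodule.span k (Set.range
      (fun q : Fin m × Fin m => x ^ (q.1 : ℕ) * y * x ^ (q.2 : ℕ))) ≤
      (Submodule.span k ({1, x, y} : Set A)) ^ N := by
    rw [Submodule.span_le]
    rintro _ ⟨q, rfl⟩
    have h1 := q.1.2
    have h2 := q.2.2
    exact xyx_mem x y _ _ N (by omega)
  have hfd : Module.Finite k ↥((Submodule.span k ({1, x, y} : Set A)) ^ N) := pow_fd h N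
  have h3 := Submodule.finrank_mono hspan
  rw [finrank_span_eq_card (hli m)] at h3
  have h4 : Fintype.card (Fin m × Fin m) = m ^ 2 := by simp [sq]
  rw [h4] at h3
  calc N ^ 2 ≤ (2 * m) ^ 2 := Nat.pow_le_pow_left h2m 2
    _ = 4 * m ^ 2 := by ring
    _ ≤ _ := Nat.mul_le_mul_left 4 h3

end abstract_part

variable (k : Type*) [Field k]

theorem xyx_eq (a b : ℕ) : opX k ^ a * opY k * opX k ^ b = sh k (fun n i =>
    ((∀ j < a, PX n (i + j)) ∧ PY n (i + a)) ∧ ∀ j < b, PX n (i + (a + 1) + j)) (a + 1 + b) := by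
  rw [opX_pow, opX_pow, opY, sh_mul, sh_mul]

theorem linInd_op (m : ℕ) : LinearIndependent k
    (fun q : Fin m × Fin m => opX k ^ (q.1 : ℕ) * opY k * opX k ^ (q.2 : ℕ)) := by
  rw [Fintype.linearIndependent_iff]
  intro g hg q0
  obtain ⟨a0, b0⟩ := q0
  set n := m + 1 with hn
  have hm : m < 2 ^ n := lt_of_lt_of_le (Nat.lt_succ_self m) (Nat.lt_two_pow_self).le
  have ha0 := a0.2
  have hb0 := b0.2
  have hlen : 2 * 2 ^ n ≤ len n := by
    unfold len
    rw [mul_comm]
    apply Nat.mul_le_mul_left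
    omega
  set δ : ℕ → ℕ → k := fun _ i => if i = 2 ^ n + 1 + (b0 : ℕ) then 1 else 0 with hδ
  have h1 : (∑ q : Fin m × Fin m, g q • (opX k ^ (q.1 : ℕ) * opY k * opX k ^ (q.2 : ℕ))) δ n
      (2 ^ n - a0) = 0 := by
    rw [hg]; rfl
  have h2 : (∑ q : Fin m × Fin m, g q • (opX k ^ (q.1 : ℕ) * opY k * opX k ^ (q.2 : ℕ))) δ n
      (2 ^ n - a0) = ∑ q : Fin m × Fin m,
        g q * ((opX k ^ (q.1 : ℕ) * opY k * opX k ^ (q.2 : ℕ)) δ n (2 ^ n - a0)) := by
    rw [LinearMap.sum_apply, Finset.sum_apply, Finset.sum_apply]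
    rfl
  rw [h2, Finset.sum_eq_single (a0, b0)] at h1
  · rw [xyx_eq, sh_apply_of] at h1
    · have h3 : 2 ^ n - (a0 : ℕ) + ((a0 : ℕ) + 1 + (b0 : ℕ)) = 2 ^ n + 1 + (b0 : ℕ) := by omega
      simpa [hδ, h3] using h1
    · have hnd : ∀ c, 2 ^ n ∣ c → ∀ j, 0 < j → j < 2 ^ n → ¬ 2 ^ n ∣ c + j := by
        intro c hc j hj0 hj hd
        have h1 := Nat.le_of_dvd (by omega) ((Nat.dvd_add_right hc).mp hd)
        omega
      simp only
      refine ⟨⟨fun j hj => ⟨by omega, fun hd => ?_⟩, ⟨by omega, ?_⟩⟩, fun j hj => ⟨by omega, ?_⟩⟩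
      · have := Nat.le_of_dvd (by omega) hd
        omega
      · rw [Nat.sub_add_cancel (by omega)]
      · have := hnd (2 ^ n) (dvd_refl _) (1 + j) (by omega) (by omega)
        rwa [show 2 ^ n - (a0 : ℕ) + ((a0 : ℕ) + 1) + j = 2 ^ n + (1 + j) by omega]
  · rintro ⟨a, b⟩ _ hne
    have ha := a.2
    have hb := b.2
    rw [xyx_eq]
    by_cases h : ((∀ j < (a : ℕ), PX n (2 ^ n - a0 + j)) ∧ PY n (2 ^ n - a0 + a)) ∧
        ∀ j < (b : ℕ), PX n (2 ^ n - a0 + (a + 1) + j)
    · rw [sh_apply_of _ h]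
      have hd := h.1.2.2
      have haa : (a : ℕ) = a0 := by
        obtain ⟨c, hc⟩ := hd
        have hc1 : c = 1 := by
          have hc0 : c ≠ 0 := by
            rintro rfl
            omega
          have hc2 : c < 2 := by
            by_contra hge
            have : 2 ^ n * 2 ≤ 2 ^ n * c := Nat.mul_le_mul_left _ (by omega)
            omega
          omega
        subst hc1
        omega
      have hbb : (b : ℕ) ≠ b0 := by
        intro hb'
        exact hne (Prod.ext (Fin.ext haa) (Fin.ext hb'))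
      have h3 : 2 ^ n - (a0 : ℕ) + ((a : ℕ) + 1 + (b : ℕ)) = 2 ^ n + 1 + (b : ℕ) := by omega
      simp only [hδ, h3]
      rw [if_neg (by omega), mul_zero]
    · rw [sh_apply_not _ h, mul_zero]
  · intro h
    exact absurd (Finset.mem_univ _) h

theorem linInd (m : ℕ) : LinearIndependent k
    (fun q : Fin m × Fin m => gx k ^ (q.1 : ℕ) * gy k * gx k ^ (q.2 : ℕ)) := by
  apply LinearIndependent.of_comp (Alg k).val.toLinearMap
  exact linInd_op k m

theorem growth_lower (N : ℕ) : N ^ 2 ≤ 4 * Module.finrank k ↥((V k) ^ N) :=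
  lower_abs (rels k) (linInd k) N

open Filter in
theorem log_tendsto {d : ℕ → ℕ} (hlow : ∀ n, n ^ 2 ≤ 4 * d n)
    (hup : ∀ n, d n ≤ 3 * (n + 1) ^ 2) :
    Tendsto (fun n : ℕ => Real.log (d n) / Real.log n) atTop (nhds 2) := by
  have hlog : Tendsto (fun n : ℕ => Real.log (n : ℝ)) atTop atTop :=
    Real.tendsto_log_atTop.comp tendsto_natCast_atTop_atTop
  have hlow' : Tendsto (fun n : ℕ => 2 - Real.log 4 / Real.log n) atTop (nhds 2) := by
    have h := (tendsto_const_nhds (x := (2 : ℝ))).sub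
      ((tendsto_const_nhds (x := Real.log 4)).div_atTop hlog)
    simpa using h
  have hup' : Tendsto (fun n : ℕ => 2 + Real.log 12 / Real.log n) atTop (nhds 2) := by
    have h := (tendsto_const_nhds (x := (2 : ℝ))).add
      ((tendsto_const_nhds (x := Real.log 12)).div_atTop hlog)
    simpa using h
  refine tendsto_of_tendsto_of_tendsto_of_le_of_le' hlow' hup' ?_ ?_
  · filter_upwards [eventually_ge_atTop 2] with n hn
    have hn' : (2 : ℝ) ≤ n := by exact_mod_cast hn
    have hlogpos : 0 < Real.log n := Real.log_pos (by linarith)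
    have h1 : ((n : ℝ)) ^ 2 ≤ 4 * (d n : ℝ) := by
      exact_mod_cast hlow n
    have h2 : Real.log ((n : ℝ) ^ 2) ≤ Real.log (4 * (d n : ℝ)) :=
      Real.log_le_log (by positivity) h1
    have hfin : (d n : ℝ) ≠ 0 := by
      intro h0
      rw [h0] at h1
      nlinarith
    rw [Real.log_pow, Real.log_mul (by norm_num) hfin] at h2
    rw [le_div_iff₀ hlogpos, sub_mul, div_mul_cancel₀ _ hlogpos.ne']
    push_cast at h2
    linarith
  · filter_upwards [eventually_ge_atTop 2] with n hn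
    have hn' : (2 : ℝ) ≤ n := by exact_mod_cast hn
    have hlogpos : 0 < Real.log n := Real.log_pos (by linarith)
    have h1 : (d n : ℝ) ≤ 3 * ((n : ℝ) + 1) ^ 2 := by
      exact_mod_cast hup n
    have h3 : (d n : ℝ) ≤ 12 * (n : ℝ) ^ 2 := by nlinarith
    have h4 : 0 < (d n : ℝ) := by
      have h5 : ((n : ℝ)) ^ 2 ≤ 4 * (d n : ℝ) := by
        exact_mod_cast hlow n
      nlinarith
    have h2 := Real.log_le_log h4 h3
    rw [Real.log_mul (by norm_num) (by positivity), Real.log_pow] at h2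
    rw [div_le_iff₀ hlogpos, add_mul, div_mul_cancel₀ _ hlogpos.ne']
    push_cast at h2
    linarith

theorem gk_dim : Filter.Tendsto
    (fun n : ℕ => Real.log (Module.finrank k ↥((V k) ^ n)) / Real.log n)
    Filter.atTop (nhds 2) :=
  log_tendsto (growth_lower k) (growth k)

end Pool.Agent.Lib.MP_a19302
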