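import Mathlib

/-!
A two-generated monomial algebra of quadratic growth whose nilpotent ideals have
unbounded nilpotency index.

`x` and `y` act on the space of functions `f : ℕ → ℕ → k`; on component `n` the letter at the
position `i < 2 ^ n * n` is `y` when `2 ^ n ∣ i` and `x` otherwise.
-/

set_option autoImplicit false

namespace Pool.Agent.Lib.MP_a19302

open Classical in
/-- The operator `f ↦ (n, i) ↦ if P n i then f n (i + s) else 0`. -/
noncomputable def sh (k : Type*) [Field k] (P : ℕ → ℕ → Prop) (s : ℕ) :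
    Module.End k (ℕ → ℕ → k) where
  toFun f := fun n i => if P n i then f n (i + s) else 0
  map_add' f g := by
    funext n i
    by_cases h : P n i <;> simp [h]
  map_smul' c f := by
    funext n i
    by_cases h : P n i <;> simp [h]

section sh
variable {k : Type*} [Field k]

theorem sh_apply_of {P : ℕ → ℕ → Prop} {s : ℕ} (f : ℕ → ℕ → k) {n i : ℕ} (h : P n i) :
    sh k P s f n i = f n (i + s) := by
  simp [sh, h]

theorem sh_apply_not {P : ℕ → ℕ → Prop} {s : ℕ} (f : ℕ → ℕ → k) {n i : ℕ} (h : ¬ P n i) :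
    sh k P s f n i = 0 := by
  simp [sh, h]

theorem sh_mul (P Q : ℕ → ℕ → Prop) (s t : ℕ) :
    sh k P s * sh k Q t = sh k (fun n i => P n i ∧ Q n (i + s)) (s + t) := by
  apply LinearMap.ext
  intro f
  funext n i
  rw [Module.End.mul_apply]
  by_cases hP : P n i
  · rw [sh_apply_of _ hP]
    by_cases hQ : Q n (i + s)
    · rw [sh_apply_of _ hQ, sh_apply_of _ ⟨hP, hQ⟩, add_assoc]
    · rw [sh_apply_not _ hQ, sh_apply_not _ (fun h => hQ h.2)]
  · rw [sh_apply_not _ hP, sh_apply_not _ (fun h => hP h.1)]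

theorem sh_congr {P Q : ℕ → ℕ → Prop} {s t : ℕ} (h : ∀ n i, P n i ↔ Q n i) (hst : s = t) :
    sh k P s = sh k Q t := by
  have : P = Q := by
    funext n i
    exact propext (h n i)
  rw [this, hst]

theorem sh_eq_zero {P : ℕ → ℕ → Prop} {s : ℕ} (h : ∀ n i, ¬ P n i) : sh k P s = 0 := by
  apply LinearMap.ext
  intro f
  funext n i
  rw [sh_apply_not _ (h n i)]
  rfl

theorem sh_pow (P : ℕ → ℕ → Prop) (a : ℕ) :
    (sh k P 1) ^ a = sh k (fun n i => ∀ j < a, P n (i + j)) a := by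
  induction a with
  | zero =>
    apply LinearMap.ext
    intro f
    funext n i
    rw [sh_apply_of f (by intro j hj; omega)]
    simp
  | succ a ih =>
    rw [pow_succ, ih, sh_mul]
    apply sh_congr
    · intro n i
      constructor
      · rintro ⟨h1, h2⟩ j hj
        rcases Nat.lt_succ_iff_lt_or_eq.mp hj with h | h
        · exact h1 j h
        · rw [h]; exact h2
      · intro h
        exact ⟨fun j hj => h j (by omega), h a (by omega)⟩
    · rfl

end sh

/-- Length of the word of component `n`. -/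
def len (n : ℕ) : ℕ := 2 ^ n * n

/-- Position `i` of component `n` carries the letter `x`. -/
def PX (n i : ℕ) : Prop := i < len n ∧ ¬ 2 ^ n ∣ i

/-- Position `i` of component `n` carries the letter `y`. -/
def PY (n i : ℕ) : Prop := i < len n ∧ 2 ^ n ∣ i

/-- The operator `x`. -/
noncomputable def opX (k : Type*) [Field k] : Module.End k (ℕ → ℕ → k) := sh k PX 1

/-- The operator `y`. -/
noncomputable def opY (k : Type*) [Field k] : Module.End k (ℕ → ℕ → k) := sh k PY 1

theorem key {n i b : ℕ} (h0 : 2 ^ n ∣ i) (h1 : 2 ^ n ∣ i + (b + 1))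
    (h2 : ∀ j < b, ¬ 2 ^ n ∣ i + 1 + j) : b + 1 = 2 ^ n := by
  have hd : 2 ^ n ∣ b + 1 := (Nat.dvd_add_right h0).mp h1
  have hle : 2 ^ n ≤ b + 1 := Nat.le_of_dvd (Nat.succ_pos b) hd
  by_contra hne
  have hlt : 2 ^ n < b + 1 := lt_of_le_of_ne hle (fun h => hne h.symm)
  have hpos : 0 < 2 ^ n := Nat.pos_of_ne_zero (by positivity)
  apply h2 (2 ^ n - 1) (by omega)
  have : i + 1 + (2 ^ n - 1) = i + 2 ^ n := by omega
  rw [this]
  exact (Nat.dvd_add_right h0).mpr (dvd_refl _)

section relations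
variable (k : Type*) [Field k]

theorem opX_pow (a : ℕ) : (opX k) ^ a = sh k (fun n i => ∀ j < a, PX n (i + j)) a := by
  rw [opX, sh_pow]

/-- `y x^b y = 0` unless `b + 1` is a power of two. -/
theorem rel1 (b : ℕ) (hb : ∀ m, b + 1 ≠ 2 ^ m) : opY k * opX k ^ b * opY k = 0 := by
  rw [opX_pow, opY, sh_mul, sh_mul]
  apply sh_eq_zero
  rintro n i ⟨⟨h1, h2⟩, h3⟩
  refine hb n (key h1.2 ?_ fun j hj => (h2 j hj).2)
  have := h3.2
  rwa [show i + (b + 1) = i + (1 + b) by omega]

/-- `x^a y x^(2^m-1) y = 0` when `2^m ≤ a`. -/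
theorem rel2 (a m : ℕ) (ha : 2 ^ m ≤ a) :
    opX k ^ a * opY k * opX k ^ (2 ^ m - 1) * opY k = 0 := by
  have hpos : 0 < 2 ^ m := Nat.pos_of_ne_zero (by positivity)
  rw [opX_pow, opX_pow, opY, sh_mul, sh_mul, sh_mul]
  apply sh_eq_zero
  rintro n i ⟨⟨⟨h0, h1⟩, h2⟩, h3⟩
  have h : (2 ^ m - 1) + 1 = 2 ^ n := by
    refine key h1.2 ?_ fun j hj => ?_
    · have := h3.2
      rwa [show i + (a + 1 + (2 ^ m - 1)) = i + a + (2 ^ m - 1 + 1) by omega] at this
    · have := (h2 j hj).2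
      rwa [show i + (a + 1) + j = i + a + 1 + j by omega] at this
  have hmn : 2 ^ m = 2 ^ n := by omega
  apply (h0 (a - 2 ^ m) (by omega)).2
  have h4 : i + a = i + (a - 2 ^ m) + 2 ^ n := by omega
  have h5 := h1.2
  rw [h4] at h5
  exact (Nat.dvd_add_left (dvd_refl _)).mp h5

/-- `y x^(2^m-1) y x^(2^m) = 0`. -/
theorem rel3 (m : ℕ) : opY k * opX k ^ (2 ^ m - 1) * opY k * opX k ^ (2 ^ m) = 0 := by
  have hpos : 0 < 2 ^ m := Nat.pos_of_ne_zero (by positivity)
  rw [opX_pow, opX_pow, opY, sh_mul, sh_mul, sh_mul]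
  apply sh_eq_zero
  rintro n i ⟨⟨⟨h0, h1⟩, h2⟩, h3⟩
  have h : (2 ^ m - 1) + 1 = 2 ^ n := by
    refine key h0.2 ?_ fun j hj => ?_
    · have := h2.2
      rwa [show i + (1 + (2 ^ m - 1)) = i + (2 ^ m - 1 + 1) by omega] at this
    · exact (h1 j hj).2
  have hmn : 2 ^ m = 2 ^ n := by omega
  apply (h3 (2 ^ m - 1) (by omega)).2
  have h4 : i + (1 + (2 ^ m - 1) + 1) + (2 ^ m - 1) = i + 2 ^ n + 2 ^ n := by omega
  rw [h4]
  exact Dvd.dvd.add (Dvd.dvd.add h0.2 (dvd_refl _)) (dvd_refl _)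

/-- `y x^(2^m-1) y x^b y = 0` unless `b = 2^m - 1`. -/
theorem rel4 (m b : ℕ) (hb : b + 1 ≠ 2 ^ m) :
    opY k * opX k ^ (2 ^ m - 1) * opY k * opX k ^ b * opY k = 0 := by
  have hpos : 0 < 2 ^ m := Nat.pos_of_ne_zero (by positivity)
  rw [opX_pow, opX_pow, opY, sh_mul, sh_mul, sh_mul, sh_mul]
  apply sh_eq_zero
  rintro n i ⟨⟨⟨⟨h0, h1⟩, h2⟩, h3⟩, h4⟩
  have h : (2 ^ m - 1) + 1 = 2 ^ n := by
    refine key h0.2 ?_ fun j hj => ?_
    · have := h2.2
      rwa [show i + (1 + (2 ^ m - 1)) = i + (2 ^ m - 1 + 1) by omega] at this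
    · exact (h1 j hj).2
  have h' : b + 1 = 2 ^ n := by
    refine key h2.2 ?_ fun j hj => ?_
    · have := h4.2
      rwa [show i + (1 + (2 ^ m - 1) + 1 + b) = i + (1 + (2 ^ m - 1)) + (b + 1) by omega] at this
    · have := (h3 j hj).2
      rwa [show i + (1 + (2 ^ m - 1) + 1) + j = i + (1 + (2 ^ m - 1)) + 1 + j by omega] at this
  omega

end relations

section growth

variable {k : Type*} [Field k] {A : Type*} [Ring A] [Algebra k A]

/-- The words that span the `N`-th power of the span of `1, x, y`. -/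
def words (x y : A) (N : ℕ) : Set A :=
  {w | (∃ a, a ≤ N ∧ w = x ^ a) ∨ (∃ a b, a + b + 1 ≤ N ∧ w = x ^ a * y * x ^ b) ∨
    (∃ m j a b, a < 2 ^ m ∧ b < 2 ^ m ∧ a + b + 1 + 2 ^ m * (j + 1) ≤ N ∧
      w = x ^ a * y * (x ^ (2 ^ m - 1) * y) ^ (j + 1) * x ^ b)}

/-- The word of the third type coded by two numbers. -/
def word (x y : A) (q : ℕ × ℕ) : A :=
  x ^ (q.1 % 2 ^ Nat.log 2 q.2) * y *
    (x ^ (2 ^ Nat.log 2 q.2 - 1) * y) ^ (q.1 / 2 ^ Nat.log 2 q.2) * x ^ (q.2 - 2 ^ Nat.log 2 q.2)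

open Classical in
/-- A finite set that contains all the words. -/
noncomputable def wordsFin (x y : A) (N : ℕ) : Finset A :=
  (Finset.range (N + 1)).image (fun a => x ^ a) ∪
  (Finset.range (N + 1) ×ˢ Finset.range (N + 1)).image (fun q : ℕ × ℕ => x ^ q.1 * y * x ^ q.2) ∪
  (Finset.range (N + 1) ×ˢ Finset.range (N + 1)).image (word x y)

theorem words_subset (x y : A) (N : ℕ) : words x y N ⊆ (wordsFin x y N : Set A) := by
  classical
  intro w hw
  rw [Finset.mem_coe, wordsFin, Finset.mem_union, Finset.mem_union]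
  rcases hw with ⟨a, ha, rfl⟩ | ⟨a, b, hab, rfl⟩ | ⟨m, j, a, b, ha, hb, hN, rfl⟩
  · left; left
    exact Finset.mem_image_of_mem _ (Finset.mem_range.mpr (by omega))
  · left; right
    refine Finset.mem_image.mpr ⟨(a, b), ?_, rfl⟩
    rw [Finset.mem_product, Finset.mem_range, Finset.mem_range]
    omega
  · right
    have hpos : 0 < 2 ^ m := Nat.pos_of_ne_zero (by positivity)
    refine Finset.mem_image.mpr ⟨(a + 2 ^ m * (j + 1), b + 2 ^ m), ?_, ?_⟩
    · have h1 : 2 ^ m ≤ 2 ^ m * (j + 1) := Nat.le_mul_of_pos_right _ (Nat.succ_pos j)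
      rw [Finset.mem_product, Finset.mem_range, Finset.mem_range]
      constructor
      · show a + 2 ^ m * (j + 1) < N + 1
        omega
      · show b + 2 ^ m < N + 1
        omega
    · have hlog : Nat.log 2 (b + 2 ^ m) = m := by
        rw [Nat.log_eq_iff (Or.inr ⟨by norm_num, by omega⟩)]
        constructor
        · omega
        · rw [pow_succ]; omega
      have h1 : (a + 2 ^ m * (j + 1)) % 2 ^ m = a := by
        rw [Nat.add_mul_mod_self_left, Nat.mod_eq_of_lt ha]
      have h2 : (a + 2 ^ m * (j + 1)) / 2 ^ m = j + 1 := by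
        rw [Nat.add_mul_div_left _ _ hpos, Nat.div_eq_of_lt ha, zero_add]
      simp only [word, hlog, h1, h2, Nat.add_sub_cancel]

theorem wordsFin_card (x y : A) (N : ℕ) : (wordsFin x y N).card ≤ 3 * (N + 1) ^ 2 := by
  classical
  have h1 : ((Finset.range (N + 1)).image (fun a => x ^ a)).card ≤ N + 1 :=
    le_trans Finset.card_image_le (by simp)
  have h2 : ((Finset.range (N + 1) ×ˢ Finset.range (N + 1)).image
      (fun q : ℕ × ℕ => x ^ q.1 * y * x ^ q.2)).card ≤ (N + 1) ^ 2 :=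
    le_trans Finset.card_image_le (by simp [sq])
  have h3 : ((Finset.range (N + 1) ×ˢ Finset.range (N + 1)).image (word x y)).card
      ≤ (N + 1) ^ 2 :=
    le_trans Finset.card_image_le (by simp [sq])
  have h4 := Finset.card_union_le
    ((Finset.range (N + 1)).image (fun a => x ^ a) ∪
      (Finset.range (N + 1) ×ˢ Finset.range (N + 1)).image
        (fun q : ℕ × ℕ => x ^ q.1 * y * x ^ q.2))
    ((Finset.range (N + 1) ×ˢ Finset.range (N + 1)).image (word x y))
  have h5 := Finset.card_union_le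
    ((Finset.range (N + 1)).image (fun a => x ^ a))
      ((Finset.range (N + 1) ×ˢ Finset.range (N + 1)).image
        (fun q : ℕ × ℕ => x ^ q.1 * y * x ^ q.2))
  have h6 : N + 1 ≤ (N + 1) ^ 2 := by nlinarith
  unfold wordsFin
  omega

theorem words_mono (x y : A) {M N : ℕ} (h : M ≤ N) : words x y M ⊆ words x y N := by
  rintro w (⟨a, ha, rfl⟩ | ⟨a, b, hab, rfl⟩ | ⟨m, j, a, b, ha, hb, hN, rfl⟩)
  · exact Or.inl ⟨a, by omega, rfl⟩
  · exact Or.inr (Or.inl ⟨a, b, by omega, rfl⟩)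
  · exact Or.inr (Or.inr ⟨m, j, a, b, ha, hb, by omega, rfl⟩)

/-- The relations used for the growth bound. -/
structure Rels (x y : A) : Prop where
  rel1 : ∀ b, (∀ m, b + 1 ≠ 2 ^ m) → y * x ^ b * y = 0
  rel2 : ∀ a m, 2 ^ m ≤ a → x ^ a * y * x ^ (2 ^ m - 1) * y = 0
  rel3 : ∀ m, y * x ^ (2 ^ m - 1) * y * x ^ (2 ^ m) = 0
  rel4 : ∀ m b, b + 1 ≠ 2 ^ m → y * x ^ (2 ^ m - 1) * y * x ^ b * y = 0

theorem words_mul_x {x y : A} (h : Rels x y) (N : ℕ) {w : A} (hw : w ∈ words x y N) :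
    w * x = 0 ∨ w * x ∈ words x y (N + 1) := by
  rcases hw with ⟨a, ha, rfl⟩ | ⟨a, b, hab, rfl⟩ | ⟨m, j, a, b, ha, hb, hN, rfl⟩
  · right
    exact Or.inl ⟨a + 1, by omega, (pow_succ x a).symm⟩
  · right
    exact Or.inr (Or.inl ⟨a, b + 1, by omega, by rw [pow_succ, mul_assoc _ _ x]⟩)
  · by_cases hb' : b + 1 < 2 ^ m
    · right
      refine Or.inr (Or.inr ⟨m, j, a, b + 1, ha, hb', by omega, ?_⟩)
      rw [pow_succ x b]
      simp only [mul_assoc]
    · left
      have hb2 : b + 1 = 2 ^ m := by omega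
      have h3 := h.rel3 m
      cases j with
      | zero =>
        calc x ^ a * y * (x ^ (2 ^ m - 1) * y) ^ (0 + 1) * x ^ b * x
            = x ^ a * (y * x ^ (2 ^ m - 1) * y * (x ^ b * x)) := by
              simp only [zero_add, pow_one, mul_assoc]
          _ = 0 := by rw [← pow_succ, hb2, h3, mul_zero]
      | succ j =>
        calc x ^ a * y * (x ^ (2 ^ m - 1) * y) ^ (j + 1 + 1) * x ^ b * x
            = x ^ a * y * (x ^ (2 ^ m - 1) * y) ^ j * x ^ (2 ^ m - 1) *
              (y * x ^ (2 ^ m - 1) * y * (x ^ b * x)) := by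
              rw [pow_succ (x ^ (2 ^ m - 1) * y) (j + 1), pow_succ (x ^ (2 ^ m - 1) * y) j]
              simp only [mul_assoc]
          _ = 0 := by rw [← pow_succ, hb2, h3, mul_zero]

theorem words_mul_y {x y : A} (h : Rels x y) (N : ℕ) {w : A} (hw : w ∈ words x y N) :
    w * y = 0 ∨ w * y ∈ words x y (N + 1) := by
  rcases hw with ⟨a, ha, rfl⟩ | ⟨a, b, hab, rfl⟩ | ⟨m, j, a, b, ha, hb, hN, rfl⟩
  · right
    exact Or.inr (Or.inl ⟨a, 0, by omega, by rw [pow_zero, mul_one]⟩)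
  · by_cases hb : ∃ m, b + 1 = 2 ^ m
    · obtain ⟨m, hm⟩ := hb
      have hb2 : b = 2 ^ m - 1 := by omega
      by_cases ha : a < 2 ^ m
      · right
        refine Or.inr (Or.inr ⟨m, 0, a, 0, ha, by positivity, by omega, ?_⟩)
        rw [hb2]
        simp only [zero_add, pow_one, pow_zero, mul_one, mul_assoc]
      · left
        rw [hb2]
        exact h.rel2 a m (by omega)
    · left
      push Not at hb
      rw [mul_assoc, mul_assoc, ← mul_assoc y, h.rel1 b hb, mul_zero]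
  · by_cases hb' : b + 1 = 2 ^ m
    · right
      have hb2 : b = 2 ^ m - 1 := by omega
      refine Or.inr (Or.inr ⟨m, j + 1, a, 0, ha, by positivity, ?_, ?_⟩)
      · have : 2 ^ m * (j + 1 + 1) = 2 ^ m * (j + 1) + 2 ^ m := by ring
        omega
      · rw [hb2, pow_succ (x ^ (2 ^ m - 1) * y) (j + 1)]
        simp only [pow_zero, mul_one, mul_assoc]
    · left
      have h4 := h.rel4 m b hb'
      cases j with
      | zero =>
        calc x ^ a * y * (x ^ (2 ^ m - 1) * y) ^ (0 + 1) * x ^ b * y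
            = x ^ a * (y * x ^ (2 ^ m - 1) * y * x ^ b * y) := by
              simp only [zero_add, pow_one, mul_assoc]
          _ = 0 := by rw [h4, mul_zero]
      | succ j =>
        calc x ^ a * y * (x ^ (2 ^ m - 1) * y) ^ (j + 1 + 1) * x ^ b * y
            = x ^ a * y * (x ^ (2 ^ m - 1) * y) ^ j * x ^ (2 ^ m - 1) *
              (y * x ^ (2 ^ m - 1) * y * x ^ b * y) := by
              rw [pow_succ (x ^ (2 ^ m - 1) * y) (j + 1), pow_succ (x ^ (2 ^ m - 1) * y) j]
              simp only [mul_assoc]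
          _ = 0 := by rw [h4, mul_zero]

theorem pow_le_span {x y : A} (h : Rels x y) (N : ℕ) :
    (Submodule.span k ({1, x, y} : Set A)) ^ N ≤ Submodule.span k (words x y N) := by
  induction N with
  | zero =>
    rw [pow_zero, Submodule.one_eq_span, Submodule.span_le]
    intro w hw
    rw [Set.mem_singleton_iff] at hw
    exact Submodule.subset_span (Or.inl ⟨0, le_refl _, by rw [hw, pow_zero]⟩)
  | succ N ih =>
    rw [pow_succ]
    refine le_trans (mul_le_mul' ih (le_refl _)) ?_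
    rw [Submodule.span_mul_span, Submodule.span_le]
    rintro z ⟨w, hw, v, hv, rfl⟩
    simp only
    rcases hv with rfl | rfl | rfl
    · rw [mul_one]
      exact Submodule.subset_span (words_mono _ _ (Nat.le_succ N) hw)
    · rcases words_mul_x h N hw with h0 | h1
      · rw [h0]; exact Submodule.zero_mem _
      · exact Submodule.subset_span h1
    · rcases words_mul_y h N hw with h0 | h1
      · rw [h0]; exact Submodule.zero_mem _
      · exact Submodule.subset_span h1

theorem finrank_pow_le {x y : A} (h : Rels x y) (N : ℕ) :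
    Module.finrank k ↥((Submodule.span k ({1, x, y} : Set A)) ^ N) ≤ 3 * (N + 1) ^ 2 := by
  have h1 : (Submodule.span k ({1, x, y} : Set A)) ^ N ≤
      Submodule.span k (wordsFin x y N : Set A) :=
    le_trans (pow_le_span h N) (Submodule.span_mono (words_subset x y N))
  have : FiniteDimensional k ↥(Submodule.span k (wordsFin x y N : Set A)) :=
    FiniteDimensional.span_finset k _
  exact le_trans (Submodule.finrank_mono h1)
    (le_trans (finrank_span_finset_le_card _) (wordsFin_card x y N))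

end growth

section algebra

variable (k : Type*) [Field k]

/-- The algebra generated by the two operators. -/
abbrev Alg : Subalgebra k (Module.End k (ℕ → ℕ → k)) :=
  Algebra.adjoin k ({opX k, opY k} : Set (Module.End k (ℕ → ℕ → k)))

/-- The generator `x`. -/
noncomputable def gx : Alg k := ⟨opX k, Algebra.subset_adjoin (Or.inl rfl)⟩

/-- The generator `y`. -/
noncomputable def gy : Alg k := ⟨opY k, Algebra.subset_adjoin (Or.inr rfl)⟩

theorem gx_coe : ((gx k : Alg k) : Module.End k (ℕ → ℕ → k)) = opX k := rfl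

theorem gy_coe : ((gy k : Alg k) : Module.End k (ℕ → ℕ → k)) = opY k := rfl

theorem rels : Rels (gx k) (gy k) where
  rel1 b hb := Subtype.ext (by simpa [gx_coe, gy_coe] using rel1 k b hb)
  rel2 a m h := Subtype.ext (by simpa [gx_coe, gy_coe] using rel2 k a m h)
  rel3 m := Subtype.ext (by simpa [gx_coe, gy_coe] using rel3 k m)
  rel4 m b h := Subtype.ext (by simpa [gx_coe, gy_coe] using rel4 k m b h)

/-- The generating space `V`. -/
noncomputable abbrev V : Submodule k (Alg k) :=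
  Submodule.span k ({1, gx k, gy k} : Set (Alg k))

theorem V_fd : Module.Finite k (V k) :=
  Module.Finite.span_of_finite k (Set.toFinite _)

theorem one_mem_V : (1 : Alg k) ∈ V k := Submodule.subset_span (Or.inl rfl)

theorem adjoin_V : Algebra.adjoin k (V k : Set (Alg k)) = ⊤ := by
  rw [V, Algebra.adjoin_span, eq_top_iff]
  have h := Algebra.adjoin_adjoin_coe_preimage (R := k)
    (s := ({opX k, opY k} : Set (Module.End k (ℕ → ℕ → k))))
  rw [← h]
  apply Algebra.adjoin_mono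
  rintro ⟨a, ha⟩ hmem
  rcases hmem with h1 | h1
  · right; left
    exact Subtype.ext h1
  · right; right
    exact Subtype.ext h1

theorem finiteType : Algebra.FiniteType k (Alg k) := by
  rw [← Subalgebra.fg_iff_finiteType]
  refine ⟨({opX k, opY k} : Set (Module.End k (ℕ → ℕ → k))).toFinite.toFinset, ?_⟩
  simp

theorem growth (N : ℕ) : Module.finrank k ↥((V k) ^ N) ≤ 3 * (N + 1) ^ 2 :=
  finrank_pow_le (rels k) N

/-- Functions that vanish on component `n` from position `t` on. -/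
def F (n t : ℕ) : Set (ℕ → ℕ → k) := {f | ∀ i, t ≤ i → f n i = 0}

variable {k}

theorem F_opX {n t : ℕ} {f : ℕ → ℕ → k} (hf : f ∈ F k n (t + 1)) : opX k f ∈ F k n t := by
  intro i hi
  by_cases h : PX n i
  · rw [opX, sh_apply_of _ h]
    exact hf (i + 1) (by omega)
  · rw [opX, sh_apply_not _ h]

theorem F_opY {n t : ℕ} {f : ℕ → ℕ → k} (hf : f ∈ F k n (t + 1)) : opY k f ∈ F k n t := by
  intro i hi
  by_cases h : PY n i
  · rw [opY, sh_apply_of _ h]
    exact hf (i + 1) (by omega)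
  · rw [opY, sh_apply_not _ h]

theorem F_mono {n s t : ℕ} (h : s ≤ t) {f : ℕ → ℕ → k} (hf : f ∈ F k n s) : f ∈ F k n t :=
  fun i hi => hf i (le_trans h hi)

theorem F_add {n t : ℕ} {f g : ℕ → ℕ → k} (hf : f ∈ F k n t) (hg : g ∈ F k n t) :
    f + g ∈ F k n t := by
  intro i hi
  simp [hf i hi, hg i hi]

theorem F_alg (a : Alg k) : ∀ (n t : ℕ) (f : ℕ → ℕ → k), f ∈ F k n t → a.1 f ∈ F k n t := by
  obtain ⟨a, ha⟩ := a
  simp only
  induction ha using Algebra.adjoin_induction with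
  | mem x hx =>
    intro n t f hf
    rcases hx with rfl | rfl
    · exact F_opX (F_mono (Nat.le_succ t) hf)
    · exact F_opY (F_mono (Nat.le_succ t) hf)
  | algebraMap r =>
    intro n t f hf i hi
    simp [hf i hi]
  | add x y _ _ hx hy =>
    intro n t f hf
    exact F_add (hx n t f hf) (hy n t f hf)
  | mul x y _ _ hx hy =>
    intro n t f hf
    exact hx n t _ (hy n t f hf)

/-- Membership in the ideal `I n`. -/
structure MemI (n : ℕ) (a : Alg k) : Prop where
  other : ∀ (f : ℕ → ℕ → k) (m : ℕ), m ≠ n → a.1 f ∈ F k m 0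
  top : ∀ f : ℕ → ℕ → k, a.1 f ∈ F k n (len n)
  shift : ∀ (t : ℕ) (f : ℕ → ℕ → k), f ∈ F k n (t + 1) → a.1 f ∈ F k n t

/-- The nilpotent ideal attached to component `n`. -/
def I (k : Type*) [Field k] (n : ℕ) : TwoSidedIdeal (Alg k) :=
  TwoSidedIdeal.mk' {a | MemI n a}
    ⟨fun f m _ i _ => rfl, fun f i _ => rfl, fun t f _ i _ => rfl⟩
    (fun {x y} hx hy => ⟨fun f m hm => F_add (hx.other f m hm) (hy.other f m hm),
      fun f => F_add (hx.top f) (hy.top f),
      fun t f hf => F_add (hx.shift t f hf) (hy.shift t f hf)⟩)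
    (fun {x} hx => ⟨fun f m hm i hi => by
        have := hx.other f m hm i hi
        simp [this],
      fun f i hi => by
        have := hx.top f i hi
        simp [this],
      fun t f hf i hi => by
        have := hx.shift t f hf i hi
        simp [this]⟩)
    (fun {x y} hy => ⟨fun f m hm => F_alg x m 0 _ (hy.other f m hm),
      fun f => F_alg x n _ _ (hy.top f),
      fun t f hf => F_alg x n _ _ (hy.shift t f hf)⟩)
    (fun {x y} hx => ⟨fun f m hm => hx.other _ m hm,
      fun f => hx.top _,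
      fun t f hf => hx.shift t _ (F_alg y n _ _ hf)⟩)

theorem mem_I {n : ℕ} {a : Alg k} : a ∈ I k n ↔ MemI n a := by
  unfold I
  rw [TwoSidedIdeal.mem_mk']
  rfl

theorem prod_mem {n : ℕ} (l : List (Alg k)) (hl : ∀ a ∈ l, MemI n a) (hne : l ≠ []) :
    ∀ f : ℕ → ℕ → k, (∀ m, m ≠ n → l.prod.1 f ∈ F k m 0) ∧
      l.prod.1 f ∈ F k n (len n + 1 - l.length) := by
  induction l with
  | nil => exact absurd rfl hne
  | cons a l ih =>
    intro f
    have ha : MemI n a := hl a (List.mem_cons_self)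
    have hl' : ∀ b ∈ l, MemI n b := fun b hb => hl b (List.mem_cons_of_mem _ hb)
    have hprod : (a :: l).prod.1 f = a.1 (l.prod.1 f) := by
      rw [List.prod_cons]
      rfl
    rw [hprod]
    refine ⟨fun m hm => ha.other _ m hm, ?_⟩
    by_cases hnil : l = []
    · subst hnil
      have := ha.top ((List.prod ([] : List (Alg k))).1 f)
      simpa using this
    · have h1 := (ih hl' hnil f).2
      rw [List.length_cons]
      by_cases hs : len n + 1 - l.length = 0
      · rw [hs] at h1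
        have h2 : len n + 1 - (l.length + 1) = 0 := by omega
        rw [h2]
        exact F_alg a n 0 _ h1
      · have h2 : len n + 1 - l.length = (len n + 1 - (l.length + 1)) + 1 := by omega
        rw [h2] at h1
        exact ha.shift _ _ h1

theorem I_nilpotent (n : ℕ) : ∀ g : Fin (len n + 1) → Alg k, (∀ i, g i ∈ I k n) →
    (List.ofFn g).prod = 0 := by
  intro g hg
  apply Subtype.ext
  apply LinearMap.ext
  intro f
  have h := prod_mem (n := n) (List.ofFn g) (by
    intro a ha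
    obtain ⟨i, rfl⟩ := List.mem_ofFn.mp ha
    exact mem_I.mp (hg i)) (by simp) f
  have hlen : len n + 1 - (List.ofFn g).length = 0 := by simp
  rw [hlen] at h
  funext m i
  by_cases hm : m = n
  · subst hm
    exact h.2 i (Nat.zero_le i)
  · exact h.1 m hm i (Nat.zero_le i)

/-- The element `y x^(2^n-1) y x^(2^n-1)`. -/
noncomputable def T (k : Type*) [Field k] (n : ℕ) : Alg k :=
  gy k * gx k ^ (2 ^ n - 1) * gy k * gx k ^ (2 ^ n - 1)

theorem T_coe (n : ℕ) : (T k n).1 = sh k (fun m i =>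
    ((PY m i ∧ ∀ j < 2 ^ n - 1, PX m (i + 1 + j)) ∧ PY m (i + (1 + (2 ^ n - 1)))) ∧
      ∀ j < 2 ^ n - 1, PX m (i + (1 + (2 ^ n - 1) + 1) + j)) (2 * 2 ^ n) := by
  have hpos : 0 < 2 ^ n := Nat.pos_of_ne_zero (by positivity)
  have : (T k n).1 = opY k * opX k ^ (2 ^ n - 1) * opY k * opX k ^ (2 ^ n - 1) := by
    simp [T, gx_coe, gy_coe]
  rw [this, opX_pow, opY, sh_mul, sh_mul, sh_mul]
  apply sh_congr (fun _ _ => Iff.rfl)
  omega

theorem T_mem (n : ℕ) : T k n ∈ I k n := by
  have hpos : 0 < 2 ^ n := Nat.pos_of_ne_zero (by positivity)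
  rw [mem_I]
  refine ⟨fun f m hm i _ => ?_, fun f i hi => ?_, fun t f hf i hi => ?_⟩
  · rw [T_coe]
    apply sh_apply_not
    rintro ⟨⟨⟨h0, h1⟩, h2⟩, h3⟩
    have h : (2 ^ n - 1) + 1 = 2 ^ m := by
      refine key h0.2 ?_ fun j hj => ?_
      · have := h2.2
        rwa [show i + (1 + (2 ^ n - 1)) = i + (2 ^ n - 1 + 1) by omega] at this
      · exact (h1 j hj).2
    have h5 : 2 ^ n = 2 ^ m := by omega
    exact hm (Nat.pow_right_injective (le_refl 2) h5).symm
  · rw [T_coe]
    apply sh_apply_not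
    rintro ⟨⟨⟨h0, h1⟩, h2⟩, h3⟩
    have := h0.1
    omega
  · rw [T_coe]
    by_cases h : ((PY n i ∧ ∀ j < 2 ^ n - 1, PX n (i + 1 + j)) ∧ PY n (i + (1 + (2 ^ n - 1)))) ∧
      ∀ j < 2 ^ n - 1, PX n (i + (1 + (2 ^ n - 1) + 1) + j)
    · rw [sh_apply_of _ h]
      exact hf _ (by omega)
    · exact sh_apply_not _ h

theorem T_pow_apply (n : ℕ) (r : ℕ) : ∀ (f : ℕ → ℕ → k) (s : ℕ), 2 * (s + r) ≤ n →
    ((T k n).1 ^ r) f n (2 * 2 ^ n * s) = f n (2 * 2 ^ n * (s + r)) := by
  have hpos : 0 < 2 ^ n := Nat.pos_of_ne_zero (by positivity)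
  induction r with
  | zero => intro f s _; rfl
  | succ r ih =>
    intro f s hs
    rw [pow_succ, Module.End.mul_apply, ih _ s (by omega)]
    set q := s + r with hq
    have hlen : 2 * 2 ^ n * q + 2 * 2 ^ n ≤ len n := by
      have h1 : 2 * (q + 1) ≤ n := by omega
      calc 2 * 2 ^ n * q + 2 * 2 ^ n = 2 ^ n * (2 * (q + 1)) := by ring
        _ ≤ 2 ^ n * n := Nat.mul_le_mul_left _ h1
    have hdvd : 2 ^ n ∣ 2 * 2 ^ n * q := ⟨2 * q, by ring⟩
    have hnd : ∀ c, 2 ^ n ∣ c → ∀ j < 2 ^ n - 1, ¬ 2 ^ n ∣ c + 1 + j := by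
      intro c hc j hj hd
      rw [add_assoc] at hd
      have h1 := Nat.le_of_dvd (by omega) ((Nat.dvd_add_right hc).mp hd)
      omega
    have hd2 : 2 ^ n ∣ 2 * 2 ^ n * q + (1 + (2 ^ n - 1)) := by
      rw [show 1 + (2 ^ n - 1) = 2 ^ n by omega]
      exact Dvd.dvd.add hdvd (dvd_refl _)
    have hcond : ((PY n (2 * 2 ^ n * q) ∧ ∀ j < 2 ^ n - 1, PX n (2 * 2 ^ n * q + 1 + j)) ∧
        PY n (2 * 2 ^ n * q + (1 + (2 ^ n - 1)))) ∧
        ∀ j < 2 ^ n - 1, PX n (2 * 2 ^ n * q + (1 + (2 ^ n - 1) + 1) + j) := by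
      refine ⟨⟨⟨⟨by omega, hdvd⟩, fun j hj => ⟨by omega, hnd _ hdvd j hj⟩⟩,
        ⟨by omega, hd2⟩⟩, fun j hj => ⟨by omega, ?_⟩⟩
      have := hnd _ hd2 j hj
      rwa [show 2 * 2 ^ n * q + (1 + (2 ^ n - 1) + 1) + j =
        2 * 2 ^ n * q + (1 + (2 ^ n - 1)) + 1 + j by omega]
    rw [T_coe, sh_apply_of _ hcond]
    congr 1

/-- No nilpotent two-sided ideal of `Alg k` contains all nilpotent two-sided ideals. -/
theorem no_greatest : ¬ ∃ N : TwoSidedIdeal (Alg k),
    (∃ m : ℕ, ∀ f : Fin m → Alg k, (∀ i, f i ∈ N) → (List.ofFn f).prod = 0) ∧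
    ∀ I : TwoSidedIdeal (Alg k),
      (∃ m : ℕ, ∀ f : Fin m → Alg k, (∀ i, f i ∈ I) → (List.ofFn f).prod = 0) → I ≤ N := by
  rintro ⟨N, ⟨m, hm⟩, hN⟩
  have hT : T k (2 * m) ∈ N := hN (I k (2 * m)) ⟨_, I_nilpotent (2 * m)⟩ (T_mem _)
  have h := hm (fun _ => T k (2 * m)) (fun _ => hT)
  rw [List.ofFn_const, List.prod_replicate] at h
  have h2 : ((T k (2 * m)).1 ^ m) (fun _ _ => (1 : k)) (2 * m) (2 * 2 ^ (2 * m) * 0) = 1 := by
    rw [T_pow_apply (2 * m) m _ 0 (by omega)]
  have h3 : (T k (2 * m)).1 ^ m = 0 := by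
    have := congrArg Subtype.val h
    simpa using this
  rw [h3] at h2
  exact zero_ne_one h2

end algebra

end Pool.Agent.Lib.MP_a19302
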